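import Mathlib

set_option autoImplicit false

namespace Pool.Agent.H357.Nets

open Finset ComplexConjugate

/-- the Euclidean inner product of `ℝ⁴ = ℂ × ℂ` -/
def ip (p q : ℂ × ℂ) : ℝ := (p.1 * conj q.1).re + (p.2 * conj q.2).re

/-- the unit tangent vector at the unit vector `p` of the minor great circle arc from `p` to the unit
vector `q ≠ ±p` -/
noncomputable def tang (p q : ℂ × ℂ) : ℂ × ℂ := (1 / √(1 - ip p q ^ 2) : ℝ) • (q - ip p q • p)

/-- the minor great circle arc between the unit vectors `p`, `q ≠ ±p`: the unit vectors of the cone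
spanned by `p` and `q` -/
def arc (p q : ℂ × ℂ) : Set (ℂ × ℂ) :=
  {x | ip x x = 1 ∧ ∃ a b : ℝ, 0 ≤ a ∧ 0 ≤ b ∧ x = a • p + b • q}

open Classical in
/-- The points `P v` of the unit sphere of `ℝ⁴`, joined by the minor arcs from `P u` to `P v` for the
edges `u v` of the connected 3-regular graph `G`, form a closed geodesic net modelled on `G`. -/
structure IsNet {V : Type} [Fintype V] (G : SimpleGraph V) (P : V → ℂ × ℂ) : Prop where
  /-- the vertices are on the unit sphere -/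
  sphere : ∀ v, ip (P v) (P v) = 1
  /-- the vertices are different -/
  inj : Function.Injective P
  /-- adjacent vertices are not antipodal -/
  proper : ∀ u v, G.Adj u v → P u ≠ -P v
  /-- the unit tangent vectors at every vertex have sum zero -/
  balanced : ∀ u, ∑ v ∈ univ.filter (fun v => G.Adj u v), tang (P u) (P v) = 0
  /-- two different edges have no common point except the image of a common vertex -/
  embedded : ∀ u v u' v', G.Adj u v → G.Adj u' v' → s(u, v) ≠ s(u', v') →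
    ∀ x ∈ arc (P u) (P v) ∩ arc (P u') (P v'), ∃ w, w ∈ s(u, v) ∧ w ∈ s(u', v') ∧ x = P w
  /-- the graph is connected -/
  connected : G.Connected
  /-- the graph is 3-regular -/
  cubic : ∀ u, (univ.filter (fun v => G.Adj u v)).card = 3

/-- the round 3-sphere carries a closed geodesic net modelled on `G`, with all edges minor arcs -/
def Carries {V : Type} [Fintype V] (G : SimpleGraph V) : Prop := ∃ P : V → ℂ × ℂ, IsNet G P

/-! ### points `(C u, S v)` -/

/-- the point `(C u, S v)` -/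
noncomputable def pt (C S : ℝ) (u v : ℂ) : ℂ × ℂ := ((C : ℂ) * u, (S : ℂ) * v)

theorem unit_mul_conj {u : ℂ} (hu : ‖u‖ = 1) : u * conj u = 1 := by
  rw [Complex.mul_conj, Complex.normSq_eq_norm_sq, hu]; norm_num

theorem unit_sq {u : ℂ} (hu : ‖u‖ = 1) : u.re * u.re + u.im * u.im = 1 := by
  have := unit_mul_conj hu
  have h := congrArg Complex.re this
  simp only [Complex.mul_re, Complex.conj_re, Complex.conj_im, Complex.one_re] at h
  linarith

theorem ip_pt (C S C' S' : ℝ) (u v w z : ℂ) (hu : ‖u‖ = 1) (hv : ‖v‖ = 1) :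
    ip (pt C S u v) (pt C' S' (u * w) (v * z)) = C * C' * w.re + S * S' * z.re := by
  have h1 := unit_sq hu
  have h2 := unit_sq hv
  simp only [ip, pt, map_mul, Complex.conj_ofReal, Complex.mul_re, Complex.mul_im, Complex.ofReal_re,
    Complex.ofReal_im, Complex.conj_re, Complex.conj_im]
  linear_combination (C * C' * w.re) * h1 + (S * S' * z.re) * h2

theorem ip_pt' (C S C' S' : ℝ) (u v : ℂ) (hu : ‖u‖ = 1) (hv : ‖v‖ = 1) :
    ip (pt C S u v) (pt C' S' u v) = C * C' + S * S' := by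
  have := ip_pt C S C' S' u v 1 1 hu hv
  simpa using this

theorem sqrt_eq_of {x y : ℝ} (hy : 0 < y) (h : x = y ^ 2) : √x = y := by
  rw [h, Real.sqrt_sq hy.le]

theorem pair_sum (C S c d κ : ℝ) (u v w z : ℂ) (hu : ‖u‖ = 1) (hv : ‖v‖ = 1)
    (hc : w.re = c) (hd : z.re = d) (hCS : C ^ 2 + S ^ 2 = 1)
    (hκ : 0 < κ) (hk : 1 - (C ^ 2 * c + S ^ 2 * d) ^ 2 = κ ^ 2) :
    tang (pt C S u v) (pt C S (u * w) (v * z)) +
      tang (pt C S u v) (pt C S (u * conj w) (v * conj z)) =
      pt (2 * C * S ^ 2 * (c - d) / κ) (-(2 * S * C ^ 2 * (c - d)) / κ) u v := by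
  have e1 : ip (pt C S u v) (pt C S (u * w) (v * z)) = C ^ 2 * c + S ^ 2 * d := by
    rw [ip_pt _ _ _ _ _ _ _ _ hu hv, hc, hd]; ring
  have e2 : ip (pt C S u v) (pt C S (u * conj w) (v * conj z)) = C ^ 2 * c + S ^ 2 * d := by
    rw [ip_pt _ _ _ _ _ _ _ _ hu hv, Complex.conj_re, Complex.conj_re, hc, hd]; ring
  have e3 : √(1 - (C ^ 2 * c + S ^ 2 * d) ^ 2) = κ := sqrt_eq_of hκ hk
  have hw : w + conj w = 2 * (c : ℂ) := by
    rw [Complex.add_conj, hc]; push_cast; ring
  have hz : z + conj z = 2 * (d : ℂ) := by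
    rw [Complex.add_conj, hd]; push_cast; ring
  have hS : S ^ 2 = 1 - C ^ 2 := by linarith
  have hS' : (S : ℂ) ^ 2 = 1 - (C : ℂ) ^ 2 := by exact_mod_cast congrArg (fun x : ℝ => (x : ℂ)) hS
  have hκ0 : (κ : ℂ) ≠ 0 := by exact_mod_cast hκ.ne'
  unfold tang
  rw [e1, e2, e3]
  ext1
  · simp only [pt, Prod.fst_add, Prod.smul_fst, Prod.fst_sub, Complex.real_smul]
    push_cast
    field_simp
    linear_combination (C : ℂ) * u * hw - 2 * (C : ℂ) * u * c * hS'
  · simp only [pt, Prod.snd_add, Prod.smul_snd, Prod.snd_sub, Complex.real_smul]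
    push_cast
    field_simp
    linear_combination (S : ℂ) * v * hz - 2 * (S : ℂ) * v * d * hS'

theorem pair_sum_pos (C S c d : ℝ) (u v w z : ℂ) (hu : ‖u‖ = 1) (hv : ‖v‖ = 1)
    (hc : w.re = c) (hd : z.re = d) (hCS : C ^ 2 + S ^ 2 = 1)
    (hκ : 0 < C * S * (c - d)) (hk : 4 * C ^ 2 * S ^ 2 * (c - d) ^ 2 + (C ^ 2 * c + S ^ 2 * d) ^ 2 = 1) :
    tang (pt C S u v) (pt C S (u * w) (v * z)) +
      tang (pt C S u v) (pt C S (u * conj w) (v * conj z)) = pt S (-C) u v := by
  rw [pair_sum C S c d (2 * (C * S * (c - d))) u v w z hu hv hc hd hCS (by linarith)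
    (by linear_combination (-1 : ℝ) * hk)]
  have h1 : C ≠ 0 := by rintro rfl; simp at hκ
  have h2 : S ≠ 0 := by rintro rfl; simp at hκ
  have h3 : c - d ≠ 0 := by intro h; rw [h] at hκ; simp at hκ
  congr 1 <;> field_simp

theorem pair_sum_neg (C S c d : ℝ) (u v w z : ℂ) (hu : ‖u‖ = 1) (hv : ‖v‖ = 1)
    (hc : w.re = c) (hd : z.re = d) (hCS : C ^ 2 + S ^ 2 = 1)
    (hκ : 0 < C * S * (d - c)) (hk : 4 * C ^ 2 * S ^ 2 * (c - d) ^ 2 + (C ^ 2 * c + S ^ 2 * d) ^ 2 = 1) :
    tang (pt C S u v) (pt C S (u * w) (v * z)) +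
      tang (pt C S u v) (pt C S (u * conj w) (v * conj z)) = pt (-S) C u v := by
  rw [pair_sum C S c d (2 * (C * S * (d - c))) u v w z hu hv hc hd hCS (by linarith)
    (by linear_combination (-1 : ℝ) * hk)]
  have h1 : C ≠ 0 := by rintro rfl; simp at hκ
  have h2 : S ≠ 0 := by rintro rfl; simp at hκ
  have h3 : d - c ≠ 0 := by intro h; rw [h] at hκ; simp at hκ
  congr 1
  · field_simp; ring
  · field_simp; ring

theorem rung (C S C' S' κ : ℝ) (u v : ℂ) (hu : ‖u‖ = 1) (hv : ‖v‖ = 1)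
    (hCS : C ^ 2 + S ^ 2 = 1) (hCS' : C' ^ 2 + S' ^ 2 = 1) (hκ : 0 < κ)
    (hk : (C * S' - C' * S) ^ 2 = κ ^ 2) :
    tang (pt C S u v) (pt C' S' u v) =
      pt (-(S * (C * S' - C' * S)) / κ) (C * (C * S' - C' * S) / κ) u v := by
  have e1 : ip (pt C S u v) (pt C' S' u v) = C * C' + S * S' := ip_pt' _ _ _ _ _ _ hu hv
  have e3 : √(1 - (C * C' + S * S') ^ 2) = κ := by
    apply sqrt_eq_of hκ
    rw [← hk]
    linear_combination (-(C' ^ 2) - S' ^ 2) * hCS - hCS'
  have hκ0 : (κ : ℂ) ≠ 0 := by exact_mod_cast hκ.ne'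
  have h1 : (C : ℂ) ^ 2 + (S : ℂ) ^ 2 = 1 := by exact_mod_cast congrArg (fun x : ℝ => (x : ℂ)) hCS
  unfold tang
  rw [e1, e3]
  ext1
  · simp only [pt, Prod.smul_fst, Prod.fst_sub, Complex.real_smul]
    push_cast
    field_simp
    linear_combination (-(C' : ℂ) * u) * h1
  · simp only [pt, Prod.smul_snd, Prod.snd_sub, Complex.real_smul]
    push_cast
    field_simp
    linear_combination (-(S' : ℂ) * v) * h1

theorem rung_pos (C S C' S' : ℝ) (u v : ℂ) (hu : ‖u‖ = 1) (hv : ‖v‖ = 1)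
    (hCS : C ^ 2 + S ^ 2 = 1) (hCS' : C' ^ 2 + S' ^ 2 = 1) (hκ : 0 < C * S' - C' * S) :
    tang (pt C S u v) (pt C' S' u v) = pt (-S) C u v := by
  rw [rung C S C' S' _ u v hu hv hCS hCS' hκ rfl]
  congr 1 <;> rw [div_eq_iff hκ.ne'] <;> ring

theorem rung_neg (C S C' S' : ℝ) (u v : ℂ) (hu : ‖u‖ = 1) (hv : ‖v‖ = 1)
    (hCS : C ^ 2 + S ^ 2 = 1) (hCS' : C' ^ 2 + S' ^ 2 = 1) (hκ : 0 < C' * S - C * S') :
    tang (pt C S u v) (pt C' S' u v) = pt S (-C) u v := by
  rw [rung C S C' S' (C' * S - C * S') u v hu hv hCS hCS' hκ (by ring)]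
  congr 1 <;> rw [div_eq_iff hκ.ne'] <;> ring

theorem pt_add (C S C' S' : ℝ) (u v : ℂ) : pt C S u v + pt C' S' u v = pt (C + C') (S + S') u v := by
  simp only [pt, Prod.mk_add_mk]
  push_cast
  congr 1 <;> ring

/-! ### the characters of `ZMod N` -/

section char

variable {N : ℕ} [NeZero N]

/-- `E j = exp (2 π i j / N)` -/
noncomputable def E (j : ZMod N) : ℂ := ZMod.stdAddChar j

theorem E_norm (j : ZMod N) : ‖E j‖ = 1 := (ZMod.stdAddChar (N := N)).norm_apply j

theorem E_add (i j : ZMod N) : E (i + j) = E i * E j := (ZMod.stdAddChar (N := N)).map_add_eq_mul i j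

theorem E_zero : E (0 : ZMod N) = 1 := (ZMod.stdAddChar (N := N)).map_zero_eq_one

theorem E_ne (j : ZMod N) : E j ≠ 0 := by
  intro h
  have := E_norm j
  rw [h, norm_zero] at this
  exact one_ne_zero this.symm

theorem E_neg (j : ZMod N) : E (-j) = conj (E j) := by
  have h1 : E (-j) * E j = 1 := by rw [← E_add, neg_add_cancel, E_zero]
  have h2 : E j * conj (E j) = 1 := unit_mul_conj (E_norm j)
  have h3 : E (-j) * E j * conj (E j) = conj (E j) := by rw [h1, one_mul]
  rw [mul_assoc, h2, mul_one] at h3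
  exact h3

theorem E_inj : Function.Injective (E : ZMod N → ℂ) := ZMod.injective_stdAddChar

theorem E_natCast (m : ℕ) : E (m : ZMod N) = Complex.exp ((2 * Real.pi * m / N : ℝ) * Complex.I) := by
  have h := ZMod.stdAddChar_coe (N := N) (m : ℤ)
  unfold E
  rw [Int.cast_natCast] at h
  rw [h]
  congr 1
  push_cast
  ring

theorem E_re (m : ℕ) : (E (m : ZMod N)).re = Real.cos (2 * Real.pi * m / N) := by
  rw [E_natCast, Complex.exp_ofReal_mul_I_re]

theorem E_im (m : ℕ) : (E (m : ZMod N)).im = Real.sin (2 * Real.pi * m / N) := by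
  rw [E_natCast, Complex.exp_ofReal_mul_I_im]

theorem sector (hN : 3 ≤ N) (m : ZMod N) (hm : m ≠ 0) (a b a' b' : ℝ) (ha : 0 ≤ a) (hb : 0 ≤ b)
    (ha' : 0 ≤ a') (hb' : 0 ≤ b')
    (h : (a : ℂ) + b * E (1 : ZMod N) = a' * E m + b' * E (m + 1)) :
    (b = 0 ∧ a' = 0) ∨ (a = 0 ∧ b' = 0) := by
  obtain ⟨M, hM⟩ : ∃ M, M = m.val := ⟨_, rfl⟩
  have hMN : M < N := by rw [hM]; exact ZMod.val_lt m
  have hmM : m = (M : ZMod N) := by rw [hM, ZMod.natCast_zmod_val]
  have hM1 : 1 ≤ M := by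
    rcases Nat.eq_zero_or_pos M with h0 | h0
    · exact absurd (by rw [hmM, h0, Nat.cast_zero]) hm
    · exact h0
  have hN0 : (0 : ℝ) < N := by exact_mod_cast (by omega : 0 < N)
  have hpi := Real.pi_pos
  have hcast : ((1 : ℕ) : ZMod N) = 1 := Nat.cast_one
  have i1 : (E (1 : ZMod N)).im = Real.sin (2 * Real.pi / N) := by
    rw [← hcast, E_im]; congr 1; push_cast; ring
  have s1 : 0 < Real.sin (2 * Real.pi / N) := by
    apply Real.sin_pos_of_pos_of_lt_pi
    · positivity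
    · rw [div_lt_iff₀ hN0]
      have : (3 : ℝ) ≤ N := by exact_mod_cast hN
      nlinarith
  have hMr : (1 : ℝ) ≤ M := by exact_mod_cast hM1
  have hMNr : (M : ℝ) + 1 ≤ N := by exact_mod_cast hMN
  rcases lt_or_ge (2 * M) N with hlt | hge
  · right
    have hltr : (2 : ℝ) * M < N := by exact_mod_cast hlt
    have h2 : (a : ℂ) * conj (E (1 : ZMod N)) + b = a' * E (m - 1) + b' * E m := by
      have h3 : E (1 : ZMod N) * conj (E (1 : ZMod N)) = 1 := unit_mul_conj (E_norm _)
      have h4 : E (m - 1) = E m * conj (E (1 : ZMod N)) := by rw [sub_eq_add_neg, E_add, E_neg]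
      have h5 : E (m + 1) * conj (E (1 : ZMod N)) = E m := by rw [E_add, mul_assoc, h3, mul_one]
      rw [h4]
      linear_combination conj (E (1 : ZMod N)) * h - (b : ℂ) * h3 + (b' : ℂ) * h5
    have h6 := congrArg Complex.im h2
    simp only [Complex.add_im, Complex.mul_im, Complex.ofReal_re, Complex.ofReal_im, Complex.conj_im,
      zero_mul, add_zero, i1] at h6
    have hm1 : m - 1 = ((M - 1 : ℕ) : ZMod N) := by rw [hmM, Nat.cast_sub hM1, Nat.cast_one]
    have i2 : (E (m - 1)).im = Real.sin (2 * Real.pi * ((M : ℝ) - 1) / N) := by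
      rw [hm1, E_im, Nat.cast_sub hM1, Nat.cast_one]
    have i3 : (E m).im = Real.sin (2 * Real.pi * M / N) := by rw [hmM, E_im]
    have s2 : 0 ≤ (E (m - 1)).im := by
      rw [i2]
      apply Real.sin_nonneg_of_nonneg_of_le_pi
      · apply div_nonneg _ hN0.le
        have : 0 ≤ (M : ℝ) - 1 := by linarith
        positivity
      · rw [div_le_iff₀ hN0]; nlinarith
    have s3 : 0 < (E m).im := by
      rw [i3]
      apply Real.sin_pos_of_pos_of_lt_pi
      · positivity
      · rw [div_lt_iff₀ hN0]; nlinarith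
    have t1 : 0 ≤ a * Real.sin (2 * Real.pi / N) := mul_nonneg ha s1.le
    have t2 : 0 ≤ a' * (E (m - 1)).im := mul_nonneg ha' s2
    have t3 : 0 ≤ b' * (E m).im := mul_nonneg hb' s3.le
    constructor
    · have : a * Real.sin (2 * Real.pi / N) = 0 := by linarith
      rcases mul_eq_zero.mp this with h7 | h7
      · exact h7
      · exact absurd h7 s1.ne'
    · have : b' * (E m).im = 0 := by linarith
      rcases mul_eq_zero.mp this with h7 | h7
      · exact h7
      · exact absurd h7 s3.ne'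
  · left
    have hger : (N : ℝ) ≤ 2 * M := by exact_mod_cast hge
    have h6 := congrArg Complex.im h
    simp only [Complex.add_im, Complex.mul_im, Complex.ofReal_re, Complex.ofReal_im,
      zero_mul, add_zero, zero_add, i1] at h6
    have hm1 : m + 1 = ((M + 1 : ℕ) : ZMod N) := by rw [hmM, Nat.cast_add, Nat.cast_one]
    have i2 : (E (m + 1)).im = Real.sin (2 * Real.pi * ((M : ℝ) + 1) / N) := by
      rw [hm1, E_im, Nat.cast_add, Nat.cast_one]
    have i3 : (E m).im = Real.sin (2 * Real.pi * M / N) := by rw [hmM, E_im]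
    have s2 : (E (m + 1)).im ≤ 0 := by
      rw [i2, ← Real.sin_sub_two_pi]
      apply Real.sin_nonpos_of_nonpos_of_neg_pi_le
      · rw [sub_nonpos, div_le_iff₀ hN0]; nlinarith
      · have : Real.pi ≤ 2 * Real.pi * ((M : ℝ) + 1) / N := by rw [le_div_iff₀ hN0]; nlinarith
        linarith
    have s3 : (E m).im ≤ 0 := by
      rw [i3, ← Real.sin_sub_two_pi]
      apply Real.sin_nonpos_of_nonpos_of_neg_pi_le
      · rw [sub_nonpos, div_le_iff₀ hN0]; nlinarith
      · have : Real.pi ≤ 2 * Real.pi * (M : ℝ) / N := by rw [le_div_iff₀ hN0]; nlinarith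
        linarith
    have t1 : 0 ≤ b * Real.sin (2 * Real.pi / N) := mul_nonneg hb s1.le
    have t2 : a' * (E m).im ≤ 0 := mul_nonpos_of_nonneg_of_nonpos ha' s3
    have t3 : b' * (E (m + 1)).im ≤ 0 := mul_nonpos_of_nonneg_of_nonpos hb' s2
    have hb0 : b = 0 := by
      have : b * Real.sin (2 * Real.pi / N) = 0 := by linarith
      rcases mul_eq_zero.mp this with h7 | h7
      · exact h7
      · exact absurd h7 s1.ne'
    refine ⟨hb0, ?_⟩
    have u2 : a' * (E m).im = 0 := by linarith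
    have u3 : b' * (E (m + 1)).im = 0 := by linarith
    rcases mul_eq_zero.mp u2 with h7 | h7
    · exact h7
    · rcases lt_or_eq_of_le hge with h8 | h8
      · exfalso
        have h8r : (N : ℝ) < 2 * M := by exact_mod_cast h8
        have : (E m).im < 0 := by
          rw [i3, ← Real.sin_sub_two_pi]
          apply Real.sin_neg_of_neg_of_neg_pi_lt
          · rw [sub_neg, div_lt_iff₀ hN0]; nlinarith
          · rw [neg_lt_sub_iff_lt_add, ← sub_lt_iff_lt_add', lt_div_iff₀ hN0]; nlinarith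
        exact absurd h7 this.ne
      · have h8r : (N : ℝ) = 2 * M := by exact_mod_cast h8
        have h9 : (M : ℝ) + 1 < N := by
          have : M + 1 < N := by omega
          exact_mod_cast this
        have : (E (m + 1)).im < 0 := by
          rw [i2, ← Real.sin_sub_two_pi]
          apply Real.sin_neg_of_neg_of_neg_pi_lt
          · rw [sub_neg, div_lt_iff₀ hN0]; nlinarith
          · rw [neg_lt_sub_iff_lt_add, ← sub_lt_iff_lt_add', lt_div_iff₀ hN0]; nlinarith
        have hb0' : b' = 0 := by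
          rcases mul_eq_zero.mp u3 with h10 | h10
          · exact h10
          · exact absurd h10 this.ne
        have hr := congrArg Complex.re h
        have r1 : (E m).re = -1 := by
          rw [hmM, E_re, h8r]
          have : 2 * Real.pi * (M : ℝ) / (2 * M) = Real.pi := by field_simp
          rw [this, Real.cos_pi]
        rw [hb0, hb0'] at hr
        simp only [Complex.add_re, Complex.mul_re, Complex.ofReal_re, Complex.ofReal_im, zero_mul,
          sub_zero, add_zero, r1] at hr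
        linarith

theorem two_edges (hN : 3 ≤ N) (C : ℝ) (hC : C ≠ 0) (j l : ZMod N) (hjl : j ≠ l)
    (a b a' b' : ℝ) (ha : 0 ≤ a) (hb : 0 ≤ b) (ha' : 0 ≤ a') (hb' : 0 ≤ b')
    (h : (C : ℂ) * (a * E j + b * E (j + 1)) = C * (a' * E l + b' * E (l + 1))) :
    (b = 0 ∧ a' = 0) ∨ (a = 0 ∧ b' = 0) := by
  have hC0 : (C : ℂ) ≠ 0 := by exact_mod_cast hC
  have h1 := mul_left_cancel₀ hC0 h
  apply sector hN (l - j) (sub_ne_zero.mpr hjl.symm) a b a' b' ha hb ha' hb'
  apply mul_left_cancel₀ (E_ne j)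
  have e1 : E j * E (l - j) = E l := by rw [← E_add]; congr 1; ring
  have e2 : E j * E (l - j + 1) = E (l + 1) := by rw [← E_add]; congr 1; ring
  have e3 : E j * E (1 : ZMod N) = E (j + 1) := by rw [← E_add]
  linear_combination h1 + (b : ℂ) * e3 - (a' : ℂ) * e1 - (b' : ℂ) * e2

end char

theorem ip_smul (a : ℝ) (p : ℂ × ℂ) : ip (a • p) (a • p) = a ^ 2 * ip p p := by
  simp only [ip, Prod.smul_fst, Prod.smul_snd, Complex.real_smul, map_mul, Complex.conj_ofReal,
    Complex.mul_re, Complex.mul_im, Complex.ofReal_re, Complex.ofReal_im, Complex.conj_re, Complex.conj_im]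
  ring

theorem scalar_one (a : ℝ) (p : ℂ × ℂ) (ha : 0 ≤ a) (hp : ip p p = 1) (h : ip (a • p) (a • p) = 1) :
    a = 1 := by
  rw [ip_smul, hp, mul_one] at h
  nlinarith

open Classical in
theorem three_sum {V : Type} [Fintype V] (G : SimpleGraph V) (u v1 v2 v3 : V) (h12 : v1 ≠ v2)
    (h13 : v1 ≠ v3) (h23 : v2 ≠ v3) (hadj : ∀ v, G.Adj u v ↔ v = v1 ∨ v = v2 ∨ v = v3)
    (f : V → ℂ × ℂ) :
    ∑ v ∈ univ.filter (fun v => G.Adj u v), f v = f v1 + f v2 + f v3 ∧
      (univ.filter (fun v => G.Adj u v)).card = 3 := by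
  have : univ.filter (fun v => G.Adj u v) = {v1, v2, v3} := by
    ext v
    simp [hadj]
  rw [this]
  constructor
  · rw [Finset.sum_insert (by simp [h12, h13]), Finset.sum_pair h23, add_assoc]
  · rw [Finset.card_eq_three]
    exact ⟨v1, v2, v3, h12, h13, h23, rfl⟩

/-- the root condition -/
theorem root_exists (c d : ℝ) (hc : c ^ 2 < 1) (h : 4 < 5 * c ^ 2 - 6 * c * d + 5 * d ^ 2) :
    ∃ X : ℝ, 1 / 2 < X ∧ X < 1 ∧ 4 * X * (1 - X) * (c - d) ^ 2 + (X * c + (1 - X) * d) ^ 2 = 1 := by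
  have hcont : ContinuousOn (fun X : ℝ => 4 * X * (1 - X) * (c - d) ^ 2 + (X * c + (1 - X) * d) ^ 2)
      (Set.Icc (1 / 2) 1) := by fun_prop
  have := intermediate_value_Ioo' (by norm_num : (1 / 2 : ℝ) ≤ 1) hcont
  have hmem : (1 : ℝ) ∈ Set.Ioo
      ((fun X : ℝ => 4 * X * (1 - X) * (c - d) ^ 2 + (X * c + (1 - X) * d) ^ 2) 1)
      ((fun X : ℝ => 4 * X * (1 - X) * (c - d) ^ 2 + (X * c + (1 - X) * d) ^ 2) (1 / 2)) := by
    constructor
    · simp only; nlinarith
    · simp only; nlinarith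
  obtain ⟨X, hX, hF⟩ := this hmem
  exact ⟨X, hX.1, hX.2, hF⟩

theorem arc_comm (p q : ℂ × ℂ) : arc p q = arc q p := by
  ext x
  constructor
  · rintro ⟨h, a, b, ha, hb, e⟩
    exact ⟨h, b, a, hb, ha, by rw [e, add_comm]⟩
  · rintro ⟨h, a, b, ha, hb, e⟩
    exact ⟨h, b, a, hb, ha, by rw [e, add_comm]⟩

/-- the arcs meet only in the images of common vertices -/
def Meet {V : Type} (P : V → ℂ × ℂ) (u v u' v' : V) : Prop :=
  ∀ x ∈ arc (P u) (P v) ∩ arc (P u') (P v'), ∃ w, w ∈ s(u, v) ∧ w ∈ s(u', v') ∧ x = P w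

theorem Meet.swap {V : Type} {P : V → ℂ × ℂ} {u v u' v' : V} (h : Meet P u v u' v') :
    Meet P u' v' u v := by
  rintro x ⟨h1, h2⟩
  obtain ⟨w, hw1, hw2, hw⟩ := h x ⟨h2, h1⟩
  exact ⟨w, hw2, hw1, hw⟩

theorem Meet.left {V : Type} {P : V → ℂ × ℂ} {u v u' v' : V} (h : Meet P u v u' v') :
    Meet P v u u' v' := by
  rintro x ⟨h1, h2⟩
  rw [arc_comm] at h1
  obtain ⟨w, hw1, hw2, hw⟩ := h x ⟨h1, h2⟩
  exact ⟨w, by rw [Sym2.eq_swap]; exact hw1, hw2, hw⟩

theorem Meet.right {V : Type} {P : V → ℂ × ℂ} {u v u' v' : V} (h : Meet P u v u' v') :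
    Meet P u v v' u' := h.swap.left.swap

theorem end_left (a b : ℝ) (p q x : ℂ × ℂ) (hx : ip x x = 1) (hp : ip p p = 1) (ha : 0 ≤ a)
    (h : x = a • p + b • q) (hb : b = 0) : x = p := by
  rw [hb, zero_smul, add_zero] at h
  have := scalar_one a p ha hp (by rw [← h]; exact hx)
  rw [h, this, one_smul]

theorem end_right (a b : ℝ) (p q x : ℂ × ℂ) (hx : ip x x = 1) (hq : ip q q = 1) (hb : 0 ≤ b)
    (h : x = a • p + b • q) (ha : a = 0) : x = q := by
  rw [ha, zero_smul, zero_add] at h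
  have := scalar_one b q hb hq (by rw [← h]; exact hx)
  rw [h, this, one_smul]

/-- two arcs whose coefficients are related as in `two_edges` -/
theorem meet_of {V : Type} {P : V → ℂ × ℂ} (hP : ∀ v, ip (P v) (P v) = 1) (hinj : Function.Injective P)
    (u v u' v' : V)
    (h : ∀ (x : ℂ × ℂ) (a b a' b' : ℝ), ip x x = 1 → 0 ≤ a → 0 ≤ b → 0 ≤ a' → 0 ≤ b' →
      x = a • P u + b • P v → x = a' • P u' + b' • P v' →
      ((b = 0 ∧ a' = 0) ∨ (a = 0 ∧ b' = 0) ∨ (b = 0 ∧ b' = 0) ∨ (a = 0 ∧ a' = 0))) :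
    Meet P u v u' v' := by
  rintro x ⟨⟨hx, a, b, ha, hb, e⟩, -, a', b', ha', hb', e'⟩
  rcases h x a b a' b' hx ha hb ha' hb' e e' with ⟨h1, h2⟩ | ⟨h1, h2⟩ | ⟨h1, h2⟩ | ⟨h1, h2⟩
  · have x1 := end_left a b _ _ x hx (hP u) ha e h1
    have x2 := end_right a' b' _ _ x hx (hP v') hb' e' h2
    have : u = v' := hinj (x1.symm.trans x2)
    exact ⟨u, by simp, by rw [this]; simp, x1⟩
  · have x1 := end_right a b _ _ x hx (hP v) hb e h1
    have x2 := end_left a' b' _ _ x hx (hP u') ha' e' h2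
    have : v = u' := hinj (x1.symm.trans x2)
    exact ⟨v, by simp, by rw [this]; simp, x1⟩
  · have x1 := end_left a b _ _ x hx (hP u) ha e h1
    have x2 := end_left a' b' _ _ x hx (hP u') ha' e' h2
    have : u = u' := hinj (x1.symm.trans x2)
    exact ⟨u, by simp, by rw [this]; simp, x1⟩
  · have x1 := end_right a b _ _ x hx (hP v) hb e h1
    have x2 := end_right a' b' _ _ x hx (hP v') hb' e' h2
    have : v = v' := hinj (x1.symm.trans x2)
    exact ⟨v, by simp, by rw [this]; simp, x1⟩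

theorem normSq_comb {N : ℕ} [NeZero N] (a b : ℝ) (j s : ZMod N) :
    Complex.normSq ((a : ℂ) * E j + b * E (j + s)) = a ^ 2 + b ^ 2 + 2 * a * b * (E s).re := by
  have h1 := unit_sq (E_norm j)
  have h2 := unit_sq (E_norm s)
  rw [E_add, Complex.normSq_apply]
  simp only [Complex.add_re, Complex.add_im, Complex.mul_re, Complex.mul_im, Complex.ofReal_re,
    Complex.ofReal_im]
  linear_combination (a ^ 2 + 2 * a * b * (E s).re +
    b ^ 2 * ((E s).re * (E s).re + (E s).im * (E s).im)) * h1 + b ^ 2 * h2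

theorem ip_self_eq (x : ℂ × ℂ) : ip x x = Complex.normSq x.1 + Complex.normSq x.2 := by
  simp only [ip, Complex.mul_conj, Complex.ofReal_re]

end Pool.Agent.H357.Nets
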